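import Mathlib

set_option autoImplicit false

namespace Pool.Agent.Lib.MP_122452_an

open Metric Set

/-- A smooth compactly supported function on the plane equal to `q^2` on the unit ball. -/
theorem exists_G : ∃ (G : ℝ × ℝ → ℝ) (C : ℝ), 0 < C ∧ (∀ P, ‖P‖ ≤ 1 → G P = P.2 ^ 2) ∧
    (∀ P, 2 ≤ |P.1| → G P = 0) ∧ (∀ P Q, |G P - G Q| ≤ C * ‖P - Q‖) ∧
    (∀ P H, |G (P + H) - 2 * G P + G (P - H)| ≤ C * ‖H‖ ^ 2) := by
  let χ : ContDiffBump (0 : ℝ × ℝ) := ⟨1, 2, by norm_num, by norm_num⟩
  let G : ℝ × ℝ → ℝ := fun P => χ P * P.2 ^ 2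
  have hG : ContDiff ℝ 2 G := χ.contDiff.mul (contDiff_snd.pow 2)
  have hGc : HasCompactSupport G := χ.hasCompactSupport.mul_right
  obtain ⟨C1, hC1⟩ := hG.lipschitzWith_of_hasCompactSupport hGc (by norm_num)
  have hG' : ContDiff ℝ 1 (fderiv ℝ G) := hG.fderiv_right (by norm_num)
  obtain ⟨C2, hC2⟩ := hG'.lipschitzWith_of_hasCompactSupport (hGc.fderiv ℝ) (by norm_num)
  have hd : Differentiable ℝ G := hG.differentiable (by norm_num)
  refine ⟨G, max (C1 : ℝ) C2 + 1, by positivity, ?_, ?_, ?_, ?_⟩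
  · intro P hP
    have : χ P = 1 := χ.one_of_mem_closedBall (by simpa using hP)
    simp only [G, this, one_mul]
  · intro P hP
    have : χ P = 0 := by
      refine χ.zero_of_le_dist ?_
      rw [dist_zero_right]
      exact hP.trans (norm_fst_le P)
    simp only [G, this, zero_mul]
  · intro P Q
    have h := hC1.dist_le_mul P Q
    rw [Real.dist_eq, dist_eq_norm] at h
    refine h.trans ?_
    gcongr
    exact (le_max_left _ _).trans (by linarith)
  · intro P H
    have hdH : ∀ x : ℝ × ℝ, DifferentiableAt ℝ (fun P : ℝ × ℝ => G (P + H)) x := fun x =>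
      DifferentiableAt.comp (g := G) x (hd _) (by fun_prop)
    have hΨ := Convex.norm_image_sub_le_of_norm_fderiv_le (𝕜 := ℝ)
      (f := fun P : ℝ × ℝ => G (P + H) - G P) (C := C2 * ‖H‖) (s := univ) (x := P - H) (y := P)
      (fun x _ => (hdH x).sub (hd x))
      (fun x _ => by
        have h1 : fderiv ℝ (fun P : ℝ × ℝ => G (P + H) - G P) x
            = fderiv ℝ G (x + H) - fderiv ℝ G x := by
          rw [fderiv_fun_sub (hdH x) (hd x)]
          rw [fderiv_comp_add_right]
        rw [h1]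
        have h := hC2.dist_le_mul (x + H) x
        rw [dist_eq_norm, dist_eq_norm, add_sub_cancel_left] at h
        exact h) convex_univ (mem_univ _) (mem_univ _)
    simp only [sub_add_cancel, sub_sub_cancel] at hΨ
    have h1 : G (P + H) - 2 * G P + G (P - H) = G (P + H) - G P - (G P - G (P - H)) := by ring
    rw [h1, ← Real.norm_eq_abs]
    refine hΨ.trans ?_
    rw [mul_assoc, ← sq]
    gcongr
    exact (le_max_right _ _).trans (by linarith)

end Pool.Agent.Lib.MP_122452_an
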