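import Pool.Agent.Lib.MP_122452_an.Defs
import Pool.Agent.Lib.MP_122452_an.Bump

set_option autoImplicit false

namespace Pool.Agent.Lib.MP_122452_an

open Metric Set

theorem scalar_aux {κ τ m s l q : ℝ} (hκ0 : 0 < κ) (hκ : κ ≤ 1 / 4) (hτ0 : 0 < τ) (hτ1 : τ ≤ 1)
    (hs0 : 0 < s) (hs2 : s ≤ 2) (hm2 : m ^ 2 ≤ 1) (hq0 : 0 ≤ q) (hq1 : q ≤ 1)
    (hl : l = κ * (τ ^ 2 * (m ^ 2 + s ^ 2 / 4)) - κ * q) (hq : q = ((τ + l) * m) ^ 2) :
    κ * τ ^ 2 * s ^ 2 / 8 ≤ l := by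
  have hτ2 : τ ^ 2 ≤ 1 := pow_le_one₀ hτ0.le hτ1
  have hs4 : s ^ 2 ≤ 4 := by nlinarith
  have hl_lower : -κ ≤ l := by
    have h1 : 0 ≤ κ * (τ ^ 2 * (m ^ 2 + s ^ 2 / 4)) := by positivity
    have h2 : κ * q ≤ κ * 1 := by gcongr
    linarith
  have hl_upper : l ≤ 2 * κ := by
    have h1 : τ ^ 2 * (m ^ 2 + s ^ 2 / 4) ≤ 1 * (1 + 1) := by
      gcongr
      linarith
    have h2 : 0 ≤ κ * q := by positivity
    have h3 : κ * (τ ^ 2 * (m ^ 2 + s ^ 2 / 4)) ≤ κ * (1 * (1 + 1)) := by gcongr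
    linarith
  have heq : l * (1 + κ * m ^ 2 * (2 * τ + l)) = κ * τ ^ 2 * s ^ 2 / 4 := by
    rw [hq] at hl
    linear_combination hl
  have h2 : 0 ≤ κ * m ^ 2 := by positivity
  have h3 : κ * m ^ 2 ≤ 1 / 4 := by
    have : κ * m ^ 2 ≤ κ * 1 := by gcongr
    linarith
  have hf1 : 0 < 1 + κ * m ^ 2 * (2 * τ + l) := by
    have h1 : -(1 / 4 : ℝ) ≤ 2 * τ + l := by linarith
    have h4 : κ * m ^ 2 * (-(1 / 4)) ≤ κ * m ^ 2 * (2 * τ + l) := by gcongr
    linarith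
  have hf2 : 1 + κ * m ^ 2 * (2 * τ + l) ≤ 2 := by
    have h1 : 2 * τ + l ≤ 5 / 2 := by linarith
    have h4 : κ * m ^ 2 * (2 * τ + l) ≤ κ * m ^ 2 * (5 / 2) := by gcongr
    linarith
  have hpos : 0 < l := by
    by_contra hcon
    push Not at hcon
    have h5 : l * (1 + κ * m ^ 2 * (2 * τ + l)) ≤ 0 := mul_nonpos_of_nonpos_of_nonneg hcon hf1.le
    rw [heq] at h5
    have : 0 < κ * τ ^ 2 * s ^ 2 / 4 := by positivity
    linarith
  have h6 : l * (1 + κ * m ^ 2 * (2 * τ + l)) ≤ l * 2 := by gcongr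
  rw [heq] at h6
  linarith

section

variable {X : Type*} [NormedAddCommGroup X] [NormedSpace ℝ X]

/-- failure of power type 2 gives bad pairs of unit vectors -/
theorem exists_bad_pair (h : ¬ HasPowerTypeTwo X) (L : ℝ) (hL : 0 < L) :
    ∃ x y : X, ‖x‖ = 1 ∧ ‖y‖ = 1 ∧ x ≠ y ∧ 1 - ‖(2⁻¹ : ℝ) • (x + y)‖ < L * ‖x - y‖ ^ 2 := by
  unfold HasPowerTypeTwo at h
  push Not at h
  obtain ⟨t, ht, hlt⟩ := h L hL
  unfold modulusOfConvexity at hlt
  simp only [iInf_lt_iff] at hlt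
  obtain ⟨x, y, hx, hy, hxy, hlt⟩ := hlt
  have hlt' : 1 - ‖(2⁻¹ : ℝ) • (x + y)‖ < L * t ^ 2 := by exact_mod_cast hlt
  have h1 : ‖(2⁻¹ : ℝ) • (x + y)‖ ≤ 1 := by
    rw [norm_smul, Real.norm_eq_abs, abs_of_pos (by norm_num : (0 : ℝ) < 2⁻¹)]
    have := norm_add_le x y
    rw [hx, hy] at this
    linarith
  have ht0 : 0 < t := by
    rcases ht.1.eq_or_lt with h0 | h0
    · rw [← h0, zero_pow (by norm_num), mul_zero] at hlt'
      linarith
    · exact h0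
  refine ⟨x, y, hx, hy, ?_, ?_⟩
  · rintro rfl
    simp at hxy
    linarith
  · refine hlt'.trans_le ?_
    have : t ^ 2 ≤ ‖x - y‖ ^ 2 := by gcongr
    nlinarith

/-- The data used in the construction. -/
structure Data (X : Type*) [NormedAddCommGroup X] [NormedSpace ℝ X] where
  /-- the cut-off function -/
  G : ℝ × ℝ → ℝ
  /-- the constant -/
  C : ℝ
  hC : 0 < C
  G_eq : ∀ P, ‖P‖ ≤ 1 → G P = P.2 ^ 2
  G_zero : ∀ P, 2 ≤ |P.1| → G P = 0
  G_lip : ∀ P Q, |G P - G Q| ≤ C * ‖P - Q‖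
  G_lip2 : ∀ P H, |G (P + H) - 2 * G P + G (P - H)| ≤ C * ‖H‖ ^ 2
  /-- direction -/
  e : X
  /-- slab functional -/
  ψ : X →L[ℝ] ℝ
  hψ : ‖ψ‖ ≤ 1
  hψe : ψ e = 1
  /-- functionals -/
  φ : ℕ → (X →L[ℝ] ℝ)
  hφ : ∀ k, ‖φ k‖ ≤ 1
  /-- vectors -/
  v : ℕ → X
  hv : ∀ k, ‖v k‖ ≤ 1

namespace Data

variable (D : Data X)

/-- centers -/
noncomputable def a (k : ℕ) : X := (4 * (k : ℝ)) • D.e

theorem ψ_a (k : ℕ) : D.ψ (D.a k) = 4 * k := by
  simp [a, D.hψe]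

/-- the coordinates -/
noncomputable def P (k : ℕ) (z : X) : ℝ × ℝ := (D.ψ (z - D.a k), D.φ k (z - D.a k))

theorem norm_P_le (h : X) (k : ℕ) : ‖((D.ψ h, D.φ k h) : ℝ × ℝ)‖ ≤ ‖h‖ := by
  rw [Prod.norm_def]
  refine max_le ?_ ?_
  · have := D.ψ.le_opNorm h
    refine this.trans ?_
    have h1 := D.hψ
    have := norm_nonneg h
    nlinarith
  · have := (D.φ k).le_opNorm h
    refine this.trans ?_
    have h1 := D.hφ k
    have := norm_nonneg h
    nlinarith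

/-- the `k`-th piece -/
noncomputable def gk (k : ℕ) (z : X) : X := D.G (D.P k z) • D.v k

theorem norm_smul_v_le (r : ℝ) (k : ℕ) : ‖r • D.v k‖ ≤ |r| := by
  rw [norm_smul, Real.norm_eq_abs]
  have := D.hv k
  have := abs_nonneg r
  nlinarith [norm_nonneg (D.v k)]

theorem gk_lip (k : ℕ) (z z' : X) : ‖D.gk k z - D.gk k z'‖ ≤ D.C * ‖z - z'‖ := by
  unfold gk
  rw [← sub_smul]
  refine (D.norm_smul_v_le _ _).trans ((D.G_lip _ _).trans ?_)
  have hC := D.hC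
  gcongr
  have : D.P k z - D.P k z' = (D.ψ (z - z'), D.φ k (z - z')) := by
    unfold P
    simp only [Prod.mk_sub_mk, ← map_sub, sub_sub_sub_cancel_right]
  rw [this]
  exact D.norm_P_le _ _

theorem gk_lip2 (k : ℕ) (z h : X) :
    ‖D.gk k (z + h) - (2 : ℝ) • D.gk k z + D.gk k (z - h)‖ ≤ D.C * ‖h‖ ^ 2 := by
  unfold gk
  rw [smul_smul, ← sub_smul, ← add_smul]
  refine (D.norm_smul_v_le _ _).trans ?_
  have h1 : D.P k (z + h) = D.P k z + (D.ψ h, D.φ k h) := by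
    unfold P
    simp only [Prod.mk_add_mk, ← map_add]
    congr 2 <;> abel
  have h2 : D.P k (z - h) = D.P k z - (D.ψ h, D.φ k h) := by
    unfold P
    simp only [Prod.mk_sub_mk, ← map_sub]
    congr 2 <;> abel
  rw [h1, h2]
  refine (D.G_lip2 _ _).trans ?_
  have hC := D.hC
  gcongr
  exact D.norm_P_le _ _

/-- the index of the slab -/
noncomputable def idx (z : X) : ℕ := ⌊(D.ψ z + 2) / 4⌋₊

theorem gk_eq_zero {z : X} {m : ℕ} (h : m ≠ D.idx z) : D.gk m z = 0 := by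
  unfold gk
  rw [D.G_zero, zero_smul]
  by_contra hcon
  push Not at hcon
  apply h
  unfold P at hcon
  simp only [map_sub, D.ψ_a] at hcon
  rw [abs_lt] at hcon
  symm
  unfold idx
  exact Nat.floor_eq_on_Ico m _ ⟨by linarith [hcon.1], by linarith [hcon.2]⟩

/-- the perturbation -/
noncomputable def g (z : X) : X := D.gk (D.idx z) z

theorem g_eq_sum {z : X} {S : Finset ℕ} (h : D.idx z ∈ S) : D.g z = ∑ m ∈ S, D.gk m z := by
  unfold g
  rw [Finset.sum_eq_single_of_mem _ h (fun m _ hm => D.gk_eq_zero hm)]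

theorem g_lip (z z' : X) : ‖D.g z - D.g z'‖ ≤ 2 * D.C * ‖z - z'‖ := by
  classical
  have h1 : D.idx z ∈ ({D.idx z, D.idx z'} : Finset ℕ) := by simp
  have h2 : D.idx z' ∈ ({D.idx z, D.idx z'} : Finset ℕ) := by simp
  rw [D.g_eq_sum h1, D.g_eq_sum h2, ← Finset.sum_sub_distrib]
  refine (norm_sum_le _ _).trans ?_
  refine (Finset.sum_le_card_nsmul _ _ (D.C * ‖z - z'‖) (fun m _ => D.gk_lip m z z')).trans ?_
  have hcard : ((({D.idx z, D.idx z'} : Finset ℕ).card : ℕ) : ℝ) ≤ 2 := by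
    exact_mod_cast Finset.card_le_two
  rw [nsmul_eq_mul]
  have hC := D.hC
  have : 0 ≤ D.C * ‖z - z'‖ := by positivity
  nlinarith

theorem g_lip2 (z h : X) :
    ‖D.g (z + h) - (2 : ℝ) • D.g z + D.g (z - h)‖ ≤ 3 * D.C * ‖h‖ ^ 2 := by
  classical
  have h1 : D.idx (z + h) ∈ ({D.idx (z + h), D.idx z, D.idx (z - h)} : Finset ℕ) := by simp
  have h2 : D.idx z ∈ ({D.idx (z + h), D.idx z, D.idx (z - h)} : Finset ℕ) := by simp
  have h3 : D.idx (z - h) ∈ ({D.idx (z + h), D.idx z, D.idx (z - h)} : Finset ℕ) := by simp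
  rw [D.g_eq_sum h1, D.g_eq_sum h2, D.g_eq_sum h3, Finset.smul_sum, ← Finset.sum_sub_distrib,
    ← Finset.sum_add_distrib]
  refine (norm_sum_le _ _).trans ?_
  refine (Finset.sum_le_card_nsmul _ _ (D.C * ‖h‖ ^ 2) (fun m _ => D.gk_lip2 m z h)).trans ?_
  have hcard : ((({D.idx (z + h), D.idx z, D.idx (z - h)} : Finset ℕ).card : ℕ) : ℝ) ≤ 3 := by
    exact_mod_cast Finset.card_le_three
  rw [nsmul_eq_mul]
  have hC := D.hC
  have : 0 ≤ D.C * ‖h‖ ^ 2 := by positivity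
  nlinarith

/-- On the unit ball around `a k` the perturbation is `φ_k(z - a_k)^2 v_k`. -/
theorem g_near (k : ℕ) (u : X) (hu : ‖u‖ ≤ 1) : D.g (D.a k + u) = (D.φ k u) ^ 2 • D.v k := by
  have hidx : D.idx (D.a k + u) = k := by
    unfold idx
    refine Nat.floor_eq_on_Ico k _ ?_
    rw [map_add, D.ψ_a]
    have h1 := D.ψ.le_opNorm u
    have h2 := D.hψ
    have h3 : |D.ψ u| ≤ 1 := by
      rw [← Real.norm_eq_abs]
      refine h1.trans ?_
      nlinarith [norm_nonneg u, norm_nonneg D.ψ]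
    rw [abs_le] at h3
    constructor
    · linarith [h3.1]
    · linarith [h3.2]
  unfold g
  rw [hidx]
  unfold gk P
  rw [add_sub_cancel_left, D.G_eq _ ((D.norm_P_le u k).trans hu)]

/-- the map -/
noncomputable def f (κ : ℝ) (z : X) : X := z + κ • D.g z

theorem f_near (κ : ℝ) (k : ℕ) (u : X) (hu : ‖u‖ ≤ 1) :
    D.f κ (D.a k + u) = D.a k + u + (κ * (D.φ k u) ^ 2) • D.v k := by
  unfold f
  rw [D.g_near k u hu, smul_smul]

theorem f_lipschitzOpen [CompleteSpace X] {κ : ℝ} (hκ0 : 0 < κ) (hκ : κ * (2 * D.C) ≤ 1 / 2) :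
    LipschitzOpen univ (D.f κ) := by
  have happ : ApproximatesLinearOn (D.f κ) (ContinuousLinearMap.id ℝ X) univ (1 / 2 : NNReal) := by
    intro z _ z' _
    have h1 : D.f κ z - D.f κ z' - (ContinuousLinearMap.id ℝ X) (z - z') = κ • (D.g z - D.g z') := by
      unfold f
      simp only [ContinuousLinearMap.coe_id', id_eq]
      rw [smul_sub]
      abel
    rw [h1, norm_smul, Real.norm_eq_abs, abs_of_pos hκ0]
    have h2 := D.g_lip z z'
    have h3 : κ * ‖D.g z - D.g z'‖ ≤ κ * (2 * D.C * ‖z - z'‖) := by gcongr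
    have h4 : κ * (2 * D.C * ‖z - z'‖) = κ * (2 * D.C) * ‖z - z'‖ := by ring
    rw [h4] at h3
    refine h3.trans ?_
    have : ((1 / 2 : NNReal) : ℝ) = 1 / 2 := by norm_num
    rw [this]
    gcongr
  refine ⟨1 / 2, by norm_num, fun x _ ε hε _ y hy => ?_⟩
  have hy' : dist y (D.f κ x) < 1 / 2 * ε := hy
  -- choose `ε' < ε`
  set ε' := 2 * dist y (D.f κ x) with hε'
  have hε'0 : 0 ≤ ε' := by positivity
  have hε'lt : ε' < ε := by rw [hε']; linarith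
  let inv : (ContinuousLinearMap.id ℝ X).NonlinearRightInverse :=
    { toFun := id
      nnnorm := 1
      bound' := fun y => by simp
      right_inv' := fun y => rfl }
  have hsurj := happ.surjOn_closedBall_of_nonlinearRightInverse inv (ε := ε') (b := x) hε'0
    (subset_univ _)
  have hmem : y ∈ closedBall (D.f κ x) ((((inv.nnnorm : ℝ))⁻¹ - ((1 / 2 : NNReal) : ℝ)) * ε') := by
    have h1 : (((inv.nnnorm : ℝ))⁻¹ - ((1 / 2 : NNReal) : ℝ)) * ε' = dist y (D.f κ x) := by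
      simp only [inv, NNReal.coe_one, inv_one, hε']
      push_cast
      ring
    rw [h1, mem_closedBall]
  obtain ⟨z, hz, hzy⟩ := hsurj hmem
  exact ⟨z, closedBall_subset_ball hε'lt hz, hzy⟩

theorem f_secondOrder {κ : ℝ} (hκ0 : 0 < κ) : SecondOrderLipschitz univ (D.f κ) := by
  have hC := D.hC
  have key : ∀ z h : X, ‖D.f κ (z + h) - (2 : ℝ) • D.f κ z + D.f κ (z - h)‖
      ≤ κ * (3 * D.C) * ‖h‖ ^ 2 := by
    intro z h
    have h1 : D.f κ (z + h) - (2 : ℝ) • D.f κ z + D.f κ (z - h)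
        = κ • (D.g (z + h) - (2 : ℝ) • D.g z + D.g (z - h)) := by
      unfold f
      module
    rw [h1, norm_smul, Real.norm_eq_abs, abs_of_pos hκ0, mul_assoc]
    gcongr
    exact D.g_lip2 z h
  unfold SecondOrderLipschitz Lip2
  refine lt_of_le_of_lt (b := ENNReal.ofReal (κ * (3 * D.C))) ?_ ENNReal.ofReal_lt_top
  refine iSup₂_le (fun t ht => ?_)
  have ht2 : 0 < t ^ 2 := by positivity
  rw [ENNReal.div_le_iff (by simpa using ht.ne') ENNReal.ofReal_ne_top, ← ENNReal.ofReal_mul (by positivity)]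
  refine iSup₂_le (fun z h => iSup₂_le (fun hh _ => ?_))
  refine ENNReal.ofReal_le_ofReal ((key z h).trans ?_)
  gcongr

/-- The key computation: failure of convexity of the image of a small ball. -/
theorem not_convex {κ : ℝ} (hκ0 : 0 < κ) (hκ : κ ≤ 1 / 4) (k : ℕ) {ε : ℝ} (hε0 : 0 < ε)
    (hε1 : ε ≤ 1) {x y : X} (hx : ‖x‖ = 1) (hy : ‖y‖ = 1) (hxy : x ≠ y)
    (hbad : 1 - ‖(2⁻¹ : ℝ) • (x + y)‖ < κ * ε / 16 * ‖x - y‖ ^ 2)
    (hφk : D.φ k (x - y) = ‖x - y‖) (hvk : D.v k = (2⁻¹ : ℝ) • (x + y)) :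
    ¬ Convex ℝ (D.f κ '' ball (D.a k) ε) := by
  intro hconv
  set w : X := (2⁻¹ : ℝ) • (x + y) with hw
  set s : ℝ := ‖x - y‖ with hs
  set m : ℝ := D.φ k w with hm
  have hs0 : 0 < s := norm_pos_iff.2 (sub_ne_zero.2 hxy)
  have hs2 : s ≤ 2 := by
    have := norm_sub_le x y
    rw [hx, hy] at this
    linarith
  have hw1 : ‖w‖ ≤ 1 := by
    rw [hw, norm_smul, Real.norm_eq_abs, abs_of_pos (by norm_num : (0 : ℝ) < 2⁻¹)]
    have := norm_add_le x y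
    rw [hx, hy] at this
    linarith
  have hm1 : |m| ≤ 1 := by
    have h1 := (D.φ k).le_opNorm w
    rw [← Real.norm_eq_abs]
    refine h1.trans ?_
    have := D.hφ k
    nlinarith [norm_nonneg w, norm_nonneg (D.φ k)]
  have hm2 : m ^ 2 ≤ 1 := by
    rw [← sq_abs]; exact pow_le_one₀ (abs_nonneg _) hm1
  have hxw : x = w + (2⁻¹ : ℝ) • (x - y) := by rw [hw]; module
  have hyw : y = w - (2⁻¹ : ℝ) • (x - y) := by rw [hw]; module
  have hφx : D.φ k x = m + s / 2 := by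
    conv_lhs => rw [hxw]
    rw [map_add, map_smul (D.φ k) (2⁻¹ : ℝ) (x - y), hφk, smul_eq_mul, ← hm]
    ring
  have hφy : D.φ k y = m - s / 2 := by
    conv_lhs => rw [hyw]
    rw [map_sub, map_smul (D.φ k) (2⁻¹ : ℝ) (x - y), hφk, smul_eq_mul, ← hm]
    ring
  -- for every `τ < ε` we get an inequality
  have key : ∀ τ : ℝ, 0 < τ → τ < ε → (τ + κ * τ ^ 2 * s ^ 2 / 8) * ‖w‖ < ε := by
    intro τ hτ0 hτε
    have hmem : ∀ z : X, ‖z‖ = 1 → D.a k + τ • z ∈ ball (D.a k) ε := by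
      intro z hz
      rw [mem_ball, dist_eq_norm, add_sub_cancel_left, norm_smul, hz, Real.norm_eq_abs,
        abs_of_pos hτ0, mul_one]
      exact hτε
    have hnorm : ∀ z : X, ‖z‖ = 1 → ‖τ • z‖ ≤ 1 := by
      intro z hz
      rw [norm_smul, hz, Real.norm_eq_abs, abs_of_pos hτ0, mul_one]
      linarith
    have hmid := hconv (mem_image_of_mem (D.f κ) (hmem x hx)) (mem_image_of_mem (D.f κ) (hmem y hy))
      (show (0 : ℝ) ≤ 1 / 2 by norm_num) (show (0 : ℝ) ≤ 1 / 2 by norm_num) (by norm_num)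
    obtain ⟨z', hz', hz'eq⟩ := hmid
    obtain ⟨z, rfl⟩ : ∃ z, z' = D.a k + z := ⟨z' - D.a k, by abel⟩
    have hzε : ‖z‖ < ε := by
      rw [mem_ball, dist_eq_norm, add_sub_cancel_left] at hz'
      exact hz'
    rw [D.f_near κ k z (by linarith), D.f_near κ k _ (hnorm x hx), D.f_near κ k _ (hnorm y hy),
      map_smul, map_smul, hφx, hφy, hvk] at hz'eq
    simp only [smul_eq_mul] at hz'eq
    set l : ℝ := κ * (τ ^ 2 * (m ^ 2 + s ^ 2 / 4)) - κ * (D.φ k z) ^ 2 with hl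
    have hz : z = (τ + l) • w := by
      have h1 : z = (1 / 2 : ℝ) • (D.a k + τ • x + (κ * (τ * (m + s / 2)) ^ 2) • w)
          + (1 / 2 : ℝ) • (D.a k + τ • y + (κ * (τ * (m - s / 2)) ^ 2) • w)
          - D.a k - (κ * (D.φ k z) ^ 2) • w := by
        rw [← hz'eq]; abel
      rw [h1, hl]
      have hxy2 : τ • w = (1 / 2 : ℝ) • (τ • x) + (1 / 2 : ℝ) • (τ • y) := by
        rw [hw]; module
      rw [add_smul, hxy2]
      module
    have hφz : D.φ k z = (τ + l) * m := by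
      conv_lhs => rw [hz]
      rw [map_smul, smul_eq_mul]
    have hφz1 : (D.φ k z) ^ 2 ≤ 1 := by
      rw [← sq_abs]
      refine pow_le_one₀ (abs_nonneg _) ?_
      have h1 := (D.φ k).le_opNorm z
      rw [← Real.norm_eq_abs]
      refine h1.trans ?_
      have := D.hφ k
      nlinarith [norm_nonneg z, norm_nonneg (D.φ k)]
    have hlpos : κ * τ ^ 2 * s ^ 2 / 8 ≤ l :=
      scalar_aux hκ0 hκ hτ0 (by linarith) hs0 hs2 hm2 (sq_nonneg _) hφz1 hl (by rw [hφz])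
    have hzn : ‖z‖ = (τ + l) * ‖w‖ := by
      rw [hz, norm_smul, Real.norm_eq_abs, abs_of_pos]
      have : 0 ≤ κ * τ ^ 2 * s ^ 2 / 8 := by positivity
      linarith
    calc (τ + κ * τ ^ 2 * s ^ 2 / 8) * ‖w‖ ≤ (τ + l) * ‖w‖ := by gcongr
      _ = ‖z‖ := hzn.symm
      _ < ε := hzε
  -- pass to the limit
  have hlim : (ε + κ * ε ^ 2 * s ^ 2 / 8) * ‖w‖ ≤ ε := by
    have hcont : Filter.Tendsto (fun τ : ℝ => (τ + κ * τ ^ 2 * s ^ 2 / 8) * ‖w‖)
        (nhdsWithin ε (Iio ε)) (nhds ((ε + κ * ε ^ 2 * s ^ 2 / 8) * ‖w‖)) := by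
      refine (Continuous.tendsto ?_ ε).mono_left nhdsWithin_le_nhds
      fun_prop
    refine le_of_tendsto hcont ?_
    filter_upwards [Ioo_mem_nhdsLT hε0] with τ hτ
    exact (key τ hτ.1 hτ.2).le
  have hwlow : 1 - κ * ε / 16 * s ^ 2 < ‖w‖ := by linarith
  have hκε : κ * ε * s ^ 2 ≤ 1 := by
    have h1 : κ * ε ≤ 1 / 4 := by nlinarith
    have h2 : s ^ 2 ≤ 4 := by nlinarith
    have h3 : 0 ≤ κ * ε := by positivity
    nlinarith
  -- contradiction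
  have hfac : 0 < ε + κ * ε ^ 2 * s ^ 2 / 8 := by positivity
  have h1 : (ε + κ * ε ^ 2 * s ^ 2 / 8) * (1 - κ * ε / 16 * s ^ 2) < ε :=
    (mul_lt_mul_of_pos_left hwlow hfac).trans_le hlim
  have h2 : (ε + κ * ε ^ 2 * s ^ 2 / 8) * (1 - κ * ε / 16 * s ^ 2)
      = ε + ε * (κ * ε * s ^ 2) * (1 / 16 - (κ * ε * s ^ 2) / 128) := by ring
  rw [h2] at h1
  have h3 : 0 ≤ ε * (κ * ε * s ^ 2) * (1 / 16 - (κ * ε * s ^ 2) / 128) := by
    have : 0 ≤ 1 / 16 - (κ * ε * s ^ 2) / 128 := by linarith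
    positivity
  linarith

end Data

end

end Pool.Agent.Lib.MP_122452_an
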