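import Mathlib

set_option autoImplicit false

/-!
# Definitions for the problem on Lipschitz-open second order Lipschitz maps
-/

namespace Pool.Agent.Lib.MP_122452_an

open Metric Set

variable (X : Type*) [NormedAddCommGroup X] [NormedSpace ℝ X]

/-- The modulus of convexity `δ_X(t) = inf {1 - ‖(x+y)/2‖ : ‖x‖ = ‖y‖ = 1, ‖x-y‖ ≥ t}`; the infimum
is taken in the extended reals (so the infimum of the empty set is `+∞`). -/
noncomputable def modulusOfConvexity (t : ℝ) : EReal :=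
  ⨅ (x : X) (y : X) (_ : ‖x‖ = 1) (_ : ‖y‖ = 1) (_ : t ≤ ‖x - y‖),
    ((1 - ‖(2⁻¹ : ℝ) • (x + y)‖ : ℝ) : EReal)

/-- `X` has modulus of convexity of power type 2: `δ_X(t) ≥ L t^2` on `[0,2]` for some `L > 0`. -/
def HasPowerTypeTwo : Prop :=
  ∃ L : ℝ, 0 < L ∧ ∀ t ∈ Icc (0 : ℝ) 2, ((L * t ^ 2 : ℝ) : EReal) ≤ modulusOfConvexity X t

variable {X}

/-- `ω₂(f,t)`, the supremum of `‖f(x+h) - 2 f(x) + f(x-h)‖` over all `‖h‖ ≤ t` and all `x` with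
`[x-h,x+h] ⊆ U`. -/
noncomputable def omega2 (U : Set X) (f : X → X) (t : ℝ) : ENNReal :=
  ⨆ (x : X) (h : X) (_ : ‖h‖ ≤ t) (_ : segment ℝ (x - h) (x + h) ⊆ U),
    ENNReal.ofReal ‖f (x + h) - (2 : ℝ) • f x + f (x - h)‖

/-- `Lip₂(f) = sup_{t>0} ω₂(f,t)/t²`. -/
noncomputable def Lip2 (U : Set X) (f : X → X) : ENNReal :=
  ⨆ (t : ℝ) (_ : 0 < t), omega2 U f t / ENNReal.ofReal (t ^ 2)

/-- `f : U → X` is second order Lipschitz. -/
def SecondOrderLipschitz (U : Set X) (f : X → X) : Prop := Lip2 U f < ⊤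

/-- `f : U → X` is Lipschitz-open. -/
def LipschitzOpen (U : Set X) (f : X → X) : Prop :=
  ∃ c : ℝ, 0 < c ∧ ∀ x ∈ U, ∀ ε : ℝ, 0 < ε → ball x ε ⊆ U → ball (f x) (c * ε) ⊆ f '' ball x ε

/-- `f : U → X` is locally convex. -/
def LocallyConvex (U : Set X) (f : X → X) : Prop :=
  ∃ c : ℝ, 0 < c ∧ ∀ ε : ℝ, 0 < ε → ε ≤ c → ∀ x ∈ U, ball x ε ⊆ U → Convex ℝ (f '' ball x ε)

variable (X)

/-- `X` is admissible. -/
def Admissible : Prop :=
  ∀ U : Set X, IsOpen U → ∀ f : X → X,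
    LipschitzOpen U f → SecondOrderLipschitz U f → LocallyConvex U f

end Pool.Agent.Lib.MP_122452_an
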