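import Pool.Agent.Lib.MP_122452_an.Construction

set_option autoImplicit false

namespace Pool.Agent.Lib.MP_122452_an

open Metric Set

/-- **Main theorem.** If every Lipschitz-open second order Lipschitz map of the whole Banach space
`X` into itself is locally convex, then `X` has modulus of convexity of power type 2. -/
theorem powerTypeTwo_of_global (X : Type*) [NormedAddCommGroup X] [NormedSpace ℝ X]
    [CompleteSpace X]
    (h : ∀ f : X → X, LipschitzOpen univ f → SecondOrderLipschitz univ f → LocallyConvex univ f) :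
    HasPowerTypeTwo X := by
  by_contra hX
  obtain ⟨G, C, hC, hG1, hG2, hG3, hG4⟩ := exists_G
  set κ : ℝ := 1 / (4 * (C + 1)) with hκ
  have hκ0 : 0 < κ := by positivity
  have hκ1 : κ ≤ 1 / 4 := by
    rw [hκ]
    apply one_div_le_one_div_of_le (by norm_num)
    linarith
  have hκ2 : κ * (2 * C) ≤ 1 / 2 := by
    rw [hκ, div_mul_eq_mul_div, div_le_div_iff₀ (by positivity) (by norm_num)]
    linarith
  have hpairs : ∀ k : ℕ, ∃ x y : X, ‖x‖ = 1 ∧ ‖y‖ = 1 ∧ x ≠ y ∧
      1 - ‖(2⁻¹ : ℝ) • (x + y)‖ < κ * (1 / ((k : ℝ) + 1)) / 16 * ‖x - y‖ ^ 2 := by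
    intro k
    exact exists_bad_pair hX _ (by positivity)
  choose x y hx hy hxy hbad using hpairs
  have hφ : ∀ k : ℕ, ∃ φ : StrongDual ℝ X, ‖φ‖ = 1 ∧ φ (x k - y k) = ‖x k - y k‖ := by
    intro k
    have : ‖x k - y k‖ ≠ 0 := norm_ne_zero_iff.2 (sub_ne_zero.2 (hxy k))
    obtain ⟨g, hg1, hg2⟩ := exists_dual_vector ℝ (x k - y k) this
    exact ⟨g, hg1, by simpa using hg2⟩
  choose φ hφ1 hφ2 using hφ
  obtain ⟨ψ, hψ1, hψ2⟩ := exists_dual_vector ℝ (x 0) (by rw [hx 0]; norm_num)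
  let D : Data X :=
    { G := G, C := C, hC := hC, G_eq := hG1, G_zero := hG2, G_lip := hG3, G_lip2 := hG4
      e := x 0
      ψ := ψ
      hψ := hψ1.le
      hψe := by rw [hψ2, hx 0]; norm_num
      φ := φ
      hφ := fun k => (hφ1 k).le
      v := fun k => (2⁻¹ : ℝ) • (x k + y k)
      hv := fun k => by
        rw [norm_smul, Real.norm_eq_abs, abs_of_pos (by norm_num : (0 : ℝ) < 2⁻¹)]
        have := norm_add_le (x k) (y k)
        rw [hx, hy] at this
        linarith }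
  obtain ⟨c, hc0, hc⟩ := h (D.f κ) (D.f_lipschitzOpen hκ0 hκ2) (D.f_secondOrder hκ0)
  obtain ⟨k, hk⟩ := exists_nat_one_div_lt hc0
  have hε0 : 0 < 1 / ((k : ℝ) + 1) := by positivity
  have hε1 : 1 / ((k : ℝ) + 1) ≤ 1 := by
    rw [div_le_one (by positivity)]
    have : (0 : ℝ) ≤ k := Nat.cast_nonneg k
    linarith
  exact D.not_convex hκ0 hκ1 k hε0 hε1 (hx k) (hy k) (hxy k) (hbad k) (hφ2 k) rfl
    (hc _ hε0 hk.le (D.a k) (mem_univ _) (subset_univ _))

end Pool.Agent.Lib.MP_122452_an
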